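import Pool.Agent.Helper74.Hc.Final
import Pool.Agent.Helper74.Hc.Two

/-! Regular `d`-handicap graphs of odd order: all large orders, all degrees but one. -/

namespace Pool.Agent.Results.MP_d9dd8c_co.OddComplete

open Finset Classical in
/-- the weight of the vertex `v`: the sum of the labels of its neighbours, where the label of `x`
is `l x + 1 ∈ {1, …, p}` -/
noncomputable def weight {p : ℕ} (G : SimpleGraph (Fin p)) (l : Fin p ≃ Fin p) (v : Fin p) : ℕ :=
  ∑ x ∈ univ.filter (fun x => G.Adj v x), ((l x).val + 1)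

open Finset Classical in
/-- every vertex has exactly `r` neighbours -/
def IsRegularGraph {p : ℕ} (G : SimpleGraph (Fin p)) (r : ℕ) : Prop :=
  ∀ v, (univ.filter (fun x => G.Adj v x)).card = r

/-- the bijection `x ↦ l x + 1` onto `{1, …, p}` is a `d`-handicap labeling: the weights of the
vertices, in the order of their labels, increase by exactly `d` at every step -/
def IsHandicapLabeling {p : ℕ} (G : SimpleGraph (Fin p)) (l : Fin p ≃ Fin p) (d : ℕ) : Prop :=
  ∀ u v, (l v).val = (l u).val + 1 → weight G l v = weight G l u + d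

/-- some `r`-regular graph on `p` vertices has a `d`-handicap labeling -/
def RegularHandicapGraphExists (p r d : ℕ) : Prop :=
  ∃ (G : SimpleGraph (Fin p)) (l : Fin p ≃ Fin p), IsRegularGraph G r ∧ IsHandicapLabeling G l d

/-- For every `d ≥ 1` and all sufficiently large odd `p`: an `r`-regular `d`-handicap graph on `p`
vertices exists iff `r` is even and `d + 2 ≤ r ≤ p - d - 4`; here one degree is left out, `r = d + 1` if
`d ≥ 3` is odd, `r = p - d - 3` if `d` is even (none for `d = 1`). -/
theorem result (d : ℕ) (hd : 1 ≤ d) :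
    ∃ p₀ : ℕ, ∀ p : ℕ, p₀ ≤ p → Odd p → ∀ r : ℕ,
      (Odd d → 3 ≤ d → r ≠ d + 1) → (Even d → r + d + 3 ≠ p) →
      (RegularHandicapGraphExists p r d ↔ Even r ∧ d + 2 ≤ r ∧ r + d + 4 ≤ p) := by
  obtain ⟨p₀, h⟩ := Pool.Agent.Helper74.Hc.odd_full d hd
  refine ⟨p₀, fun p hp hodd r h1 h2 => ?_⟩
  by_cases hc : d = 1 ∧ r = 2
  · obtain ⟨rfl, rfl⟩ := hc
    constructor
    · intro hE
      exact (Pool.Agent.Helper74.Hc.no_two hE hodd).elim
    · intro h3
      omega
  · exact h p hp hodd r (fun hd2 hr => by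
      rw [Nat.odd_iff] at hd2
      by_cases hd3 : 3 ≤ d
      · exact h1 (Nat.odd_iff.2 hd2) hd3 hr
      · exact hc ⟨by omega, by omega⟩) h2

end Pool.Agent.Results.MP_d9dd8c_co.OddComplete
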